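import Mathlib

/-!
# An irreducible module of a tridiagonal algebra with eigenspaces of different dimensions

`β = -1`. On `K³` let `A = diag (0, 1, t)` with `t ≠ 0, 1` and let `B` be the matrix all of whose
columns are `(x, y, z)` with `x y z ≠ 0` and `x + y + z = 1`, an idempotent of rank one.
-/

set_option autoImplicit false

namespace Pool.Agent.Results.MP_2c723a_al.UnequalDimensions

open Module

/-- The tridiagonal relations with parameters `β, γ, γs, ρ, ρs` for the linear maps `A, B` (where
`B` plays the role of `A^*`), `[X, Y] = X Y - Y X`. -/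
def TDRelations {K V : Type*} [Field K] [AddCommGroup V] [Module K V] (β γ γs ρ ρs : K)
    (A B : Module.End K V) : Prop :=
  ⁅A, A ^ 2 * B - β • (A * B * A) + B * A ^ 2 - γ • (A * B + B * A) - ρ • B⁆ = 0 ∧
  ⁅B, B ^ 2 * A - β • (B * A * B) + A * B ^ 2 - γs • (B * A + A * B) - ρs • A⁆ = 0

/-- The map `A` is diagonalizable. -/
def Diagonalizable {K V : Type*} [Field K] [AddCommGroup V] [Module K V]
    (A : Module.End K V) : Prop := ⨆ μ, A.eigenspace μ = ⊤

/-- `a 0, …, a d` is an ordering of the eigenvalues of `A` (without repetitions) such that `B` maps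
the eigenspace `V_i` of `A` for `a i` into `V_{i-1} + V_i + V_{i+1}` (with `V_{-1} = V_{d+1} = 0`). -/
def TDOrdering {K V : Type*} [Field K] [AddCommGroup V] [Module K V] (A B : Module.End K V)
    (d : ℕ) (a : ℕ → K) : Prop :=
  (∀ i ≤ d, ∀ j ≤ d, a i = a j → i = j) ∧
  (∀ μ : K, A.HasEigenvalue μ ↔ ∃ i ≤ d, a i = μ) ∧
  ∀ i ≤ d, (A.eigenspace (a i)).map B ≤
    ⨆ (j : ℕ) (_ : j ≤ d ∧ j ≤ i + 1 ∧ i ≤ j + 1), A.eigenspace (a j)

/-- No subspaces except `0` and `V` are invariant under both maps. -/
def Irred {K V : Type*} [Field K] [AddCommGroup V] [Module K V] (A B : Module.End K V) : Prop :=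
  ∀ W : Submodule K V, (∀ w ∈ W, A w ∈ W) → (∀ w ∈ W, B w ∈ W) → W = ⊥ ∨ W = ⊤

/-- Tridiagonal pairs. -/
structure TDPair {K V : Type*} [Field K] [AddCommGroup V] [Module K V]
    (A B : Module.End K V) : Prop where
  diagA : Diagonalizable A
  diagB : Diagonalizable B
  ordA : ∃ (d : ℕ) (a : ℕ → K), TDOrdering A B d a
  ordB : ∃ (d : ℕ) (b : ℕ → K), TDOrdering B A d b
  irred : Irred A B

section

variable {K : Type*} [Field K]

/-- the first map -/
def mA (t : K) : Module.End K (Fin 3 → K) := Matrix.toLin' !![0, 0, 0; 0, 1, 0; 0, 0, t]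

/-- the second map -/
def mB (K : Type*) [Field K] : Module.End K (Fin 3 → K) :=
  Matrix.toLin' !![1, 1, 1; 1, 1, 1; -1, -1, -1]

theorem mA_apply (t : K) (v : Fin 3 → K) : mA t v = ![0, v 1, t * v 2] := by
  funext i
  fin_cases i <;> simp [mA, Matrix.mulVec, dotProduct, Fin.sum_univ_three]

theorem mB_apply (v : Fin 3 → K) : mB K v = (v 0 + v 1 + v 2) • ![1, 1, -1] := by
  funext i
  fin_cases i <;> simp [mB, Matrix.mulVec, dotProduct, Fin.sum_univ_three] <;> ring

theorem mB_w : mB K ![1, 1, -1] = ![1, 1, -1] := by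
  rw [mB_apply]; simp

theorem relations (t : K) : TDRelations (-1) (1 + t) 1 (-t) 0 (mA t) (mB K) := by
  constructor
  · refine LinearMap.ext fun v => ?_
    simp only [Ring.lie_def, sq, LinearMap.sub_apply, Module.End.mul_apply, LinearMap.add_apply,
      LinearMap.smul_apply, LinearMap.zero_apply]
    funext i
    fin_cases i <;> simp [mA_apply, mB_apply] <;> ring
  · refine LinearMap.ext fun v => ?_
    simp only [Ring.lie_def, sq, LinearMap.sub_apply, Module.End.mul_apply, LinearMap.add_apply,
      LinearMap.smul_apply, LinearMap.zero_apply]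
    funext i
    fin_cases i <;> simp [mA_apply, mB_apply] <;> ring

theorem decomp (v : Fin 3 → K) : v = ![v 0, 0, 0] + ![0, v 1, 0] + ![0, 0, v 2] := by
  funext i; fin_cases i <;> simp

theorem diagA (t : K) : Diagonalizable (mA t) := by
  rw [Diagonalizable, eq_top_iff]
  intro v _
  rw [decomp v]
  refine Submodule.add_mem _ (Submodule.add_mem _ ?_ ?_) ?_
  · refine (le_iSup (fun μ => (mA t).eigenspace μ) 0) ?_
    rw [Module.End.mem_eigenspace_iff, mA_apply]
    simp
  · refine (le_iSup (fun μ => (mA t).eigenspace μ) 1) ?_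
    rw [Module.End.mem_eigenspace_iff, mA_apply]
    simp
  · refine (le_iSup (fun μ => (mA t).eigenspace μ) t) ?_
    rw [Module.End.mem_eigenspace_iff, mA_apply]
    simp

theorem diagB : Diagonalizable (mB K) := by
  rw [Diagonalizable, eq_top_iff]
  intro v _
  have h : v = (v - mB K v) + mB K v := by abel
  rw [h]
  refine Submodule.add_mem _ ?_ ?_
  · refine (le_iSup (fun μ => (mB K).eigenspace μ) 0) ?_
    rw [Module.End.mem_eigenspace_iff, map_sub, mB_apply v, map_smul, mB_w, sub_self, zero_smul]
  · refine (le_iSup (fun μ => (mB K).eigenspace μ) 1) ?_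
    rw [Module.End.mem_eigenspace_iff, mB_apply v, map_smul, mB_w, one_smul]

theorem proj_mem {t : K} (h0 : t ≠ 0) (h1 : t ≠ 1) (W : Submodule K (Fin 3 → K))
    (hW : ∀ w ∈ W, mA t w ∈ W) (v : Fin 3 → K) (hv : v ∈ W) :
    ![v 0, 0, 0] ∈ W ∧ ![0, v 1, 0] ∈ W ∧ ![0, 0, v 2] ∈ W := by
  have h1' : t - 1 ≠ 0 := sub_ne_zero.2 h1
  have a1 := hW v hv
  have a2 := hW _ a1
  have e2 : ![0, 0, v 2] ∈ W := by
    have h := W.smul_mem (t * (t - 1))⁻¹ (W.sub_mem a2 a1)
    have h' : (t * (t - 1))⁻¹ • (mA t (mA t v) - mA t v) = ![0, 0, v 2] := by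
      funext i
      fin_cases i
      · simp [mA_apply]
      · simp [mA_apply]
      · simp [mA_apply]; field_simp
    rwa [h'] at h
  have e1 : ![0, v 1, 0] ∈ W := by
    have h := W.sub_mem a1 (W.smul_mem t e2)
    have h' : mA t v - t • ![0, 0, v 2] = ![0, v 1, 0] := by
      funext i
      fin_cases i <;> simp [mA_apply]
    rwa [h'] at h
  refine ⟨?_, e1, e2⟩
  have h := W.sub_mem (W.sub_mem hv e1) e2
  have h' : v - ![0, v 1, 0] - ![0, 0, v 2] = ![v 0, 0, 0] := by
    funext i
    fin_cases i
    · show v 0 - 0 - 0 = v 0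
      ring
    · show v 1 - v 1 - 0 = 0
      ring
    · show v 2 - 0 - v 2 = 0
      ring
  rwa [h'] at h

theorem irred {t : K} (h0 : t ≠ 0) (h1 : t ≠ 1) : Irred (mA t) (mB K) := by
  intro W hA hB
  by_cases hW : W = ⊥
  · exact Or.inl hW
  right
  obtain ⟨v, hv, hv0⟩ := (Submodule.ne_bot_iff W).1 hW
  have hw : ![1, 1, -1] ∈ W := by
    obtain ⟨e0, e1, e2⟩ := proj_mem h0 h1 W hA v hv
    by_cases c0 : v 0 = 0
    · by_cases c1 : v 1 = 0
      · by_cases c2 : v 2 = 0
        · exact absurd (by funext i; fin_cases i <;> simp [c0, c1, c2]) hv0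
        · have h := W.smul_mem (v 2)⁻¹ (hB _ e2)
          rw [mB_apply] at h
          simpa [smul_smul, c2] using h
      · have h := W.smul_mem (v 1)⁻¹ (hB _ e1)
        rw [mB_apply] at h
        simpa [smul_smul, c1] using h
    · have h := W.smul_mem (v 0)⁻¹ (hB _ e0)
      rw [mB_apply] at h
      simpa [smul_smul, c0] using h
  obtain ⟨e0, e1, e2⟩ := proj_mem h0 h1 W hA _ hw
  rw [eq_top_iff]
  intro u _
  rw [decomp u]
  refine W.add_mem (W.add_mem ?_ ?_) ?_
  · have h := W.smul_mem (u 0) e0
    simpa using h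
  · have h := W.smul_mem (u 1) e1
    simpa using h
  · have h := W.smul_mem (-u 2) e2
    simpa using h

theorem not_ordering {t : K} (h0 : t ≠ 0) (h1 : t ≠ 1) (d : ℕ) (a : ℕ → K) :
    ¬ TDOrdering (mA t) (mB K) d a := by
  rintro ⟨-, hev, hmap⟩
  obtain ⟨v, hv⟩ := ((hev (a 0)).2 ⟨0, Nat.zero_le _, rfl⟩).exists_hasEigenvector
  have hv1 : mA t v = a 0 • v := hv.apply_eq_smul
  have hvne : v ≠ 0 := hv.2
  have hs : v 0 + v 1 + v 2 ≠ 0 := by
    have q0 := congrFun hv1 0
    have q1 := congrFun hv1 1
    have q2 := congrFun hv1 2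
    rw [mA_apply] at q0 q1 q2
    have q0' : a 0 * v 0 = 0 := by simpa using q0.symm
    have q1' : (a 0 - 1) * v 1 = 0 := by
      have : v 1 = a 0 * v 1 := by simpa using q1
      linear_combination -this
    have q2' : (a 0 - t) * v 2 = 0 := by
      have : t * v 2 = a 0 * v 2 := by simpa using q2
      linear_combination -this
    intro hs
    apply hvne
    by_cases c0 : a 0 = 0
    · rw [c0] at q1' q2'
      have z1 : v 1 = 0 := by simpa using q1'
      have z2 : v 2 = 0 := by simpa [h0] using q2'
      rw [z1, z2] at hs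
      funext i
      fin_cases i
      · simpa using hs
      · exact z1
      · exact z2
    · have z0 : v 0 = 0 := by simpa [c0] using q0'
      by_cases c1 : a 0 = 1
      · rw [c1] at q2'
        have z2 : v 2 = 0 := by
          rcases mul_eq_zero.1 q2' with h | h
          · exact absurd (sub_eq_zero.1 h).symm h1
          · exact h
        rw [z0, z2] at hs
        funext i
        fin_cases i
        · exact z0
        · simpa using hs
        · exact z2
      · have z1 : v 1 = 0 := by
          rcases mul_eq_zero.1 q1' with h | h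
          · exact absurd (sub_eq_zero.1 h) c1
          · exact h
        rw [z0, z1] at hs
        funext i
        fin_cases i
        · exact z0
        · exact z1
        · simpa using hs
  have hmem := hmap 0 (Nat.zero_le _) (Submodule.mem_map_of_mem hv.1)
  have hle : (⨆ (j : ℕ) (_ : j ≤ d ∧ j ≤ 0 + 1 ∧ 0 ≤ j + 1), (mA t).eigenspace (a j)) ≤
      LinearMap.ker ((mA t - a 0 • 1) * (mA t - a 1 • 1)) := by
    refine iSup_le fun j => iSup_le fun hj => ?_
    intro u hu
    rw [Module.End.mem_eigenspace_iff] at hu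
    rw [LinearMap.mem_ker]
    have hj' : j = 0 ∨ j = 1 := by omega
    simp only [Module.End.mul_apply, LinearMap.sub_apply, LinearMap.smul_apply,
      Module.End.one_apply, map_sub, map_smul, hu]
    rcases hj' with rfl | rfl
    · simp [hu, smul_sub, smul_smul, mul_comm]
    · simp
  have hk := hle hmem
  rw [LinearMap.mem_ker, mB_apply, map_smul] at hk
  have hk' := (smul_eq_zero.1 hk).resolve_left hs
  have k0 := congrFun hk' 0
  have k1 := congrFun hk' 1
  have k2 := congrFun hk' 2
  simp only [Module.End.mul_apply, LinearMap.sub_apply, LinearMap.smul_apply,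
      Module.End.one_apply, mA_apply, Pi.sub_apply, Pi.smul_apply, smul_eq_mul, Pi.zero_apply,
      Matrix.cons_val_zero, Matrix.cons_val_one, Matrix.cons_val] at k0 k1 k2
  have k0' : a 0 * a 1 = 0 := by linear_combination k0
  have k1' : (1 - a 0) * (1 - a 1) = 0 := by linear_combination k1
  have k2' : (t - a 0) * (t - a 1) = 0 := by linear_combination -k2
  rcases mul_eq_zero.1 k0' with z | z <;> rcases mul_eq_zero.1 k1' with o | o <;>
    rcases mul_eq_zero.1 k2' with p | p
  · rw [z, sub_zero] at o; exact one_ne_zero o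
  · rw [z, sub_zero] at o; exact one_ne_zero o
  · rw [z, sub_zero] at p; exact h0 p
  · exact h1 ((sub_eq_zero.1 p).trans (sub_eq_zero.1 o).symm)
  · exact h1 ((sub_eq_zero.1 p).trans (sub_eq_zero.1 o).symm)
  · rw [z, sub_zero] at p; exact h0 p
  · rw [z, sub_zero] at o; exact one_ne_zero o
  · rw [z, sub_zero] at o; exact one_ne_zero o

theorem eig_one : (mB K).eigenspace 1 = Submodule.span K {![1, 1, -1]} := by
  apply le_antisymm
  · intro v hv
    rw [Module.End.mem_eigenspace_iff, one_smul, mB_apply] at hv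
    exact Submodule.mem_span_singleton.2 ⟨_, hv⟩
  · rw [Submodule.span_singleton_le_iff_mem, Module.End.mem_eigenspace_iff, mB_w, one_smul]

theorem w_ne : (![1, 1, -1] : Fin 3 → K) ≠ 0 := fun h => by
  have := congrFun h 0
  simp at this

theorem finrank_one : finrank K ((mB K).eigenspace 1) = 1 := by
  rw [eig_one]
  exact finrank_span_singleton w_ne

theorem finrank_zero : finrank K ((mB K).eigenspace 0) = 2 := by
  have h1 := LinearMap.finrank_range_add_finrank_ker (mB K)
  have h2 : LinearMap.range (mB K) = (mB K).eigenspace 1 := by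
    apply le_antisymm
    · rintro _ ⟨v, rfl⟩
      rw [Module.End.mem_eigenspace_iff, mB_apply v, map_smul, mB_w, one_smul]
    · intro v hv
      rw [Module.End.mem_eigenspace_iff, one_smul] at hv
      exact ⟨v, hv⟩
  rw [h2, finrank_one, ← Module.End.eigenspace_zero, Module.finrank_fin_fun] at h1
  omega

end

/-- Over every field with more than two elements there are parameters, and a three-dimensional
irreducible module of the tridiagonal algebra with these parameters, on which `A` and `B` are
diagonalizable, which are not a tridiagonal pair, and `B` has two eigenspaces of dimensions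
`1` and `2`. -/
theorem result (K : Type*) [Field K] (hK : ∃ t : K, t ≠ 0 ∧ t ≠ 1) :
    ∃ (β γ γs ρ ρs : K) (A B : Module.End K (Fin 3 → K)),
      TDRelations β γ γs ρ ρs A B ∧ Irred A B ∧ Diagonalizable A ∧ Diagonalizable B ∧
      ¬ TDPair A B ∧
      ∃ μ ν : K, B.HasEigenvalue μ ∧ B.HasEigenvalue ν ∧
        finrank K (B.eigenspace μ) = 1 ∧ finrank K (B.eigenspace ν) = 2 := by
  obtain ⟨t, h0, h1⟩ := hK
  refine ⟨-1, 1 + t, 1, -t, 0, mA t, mB K, relations t, irred h0 h1, diagA t, diagB, ?_,
    1, 0, ?_, ?_, finrank_one, finrank_zero⟩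
  · intro h
    obtain ⟨d, a, h⟩ := h.ordA
    exact not_ordering h0 h1 d a h
  · rw [Module.End.hasEigenvalue_iff, eig_one]
    exact fun h => w_ne (Submodule.span_singleton_eq_bot.1 h)
  · rw [Module.End.hasEigenvalue_iff]
    intro h
    have := finrank_zero (K := K)
    rw [h] at this
    simp at this

end Pool.Agent.Results.MP_2c723a_al.UnequalDimensions
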